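import Mathlib.Combinatorics.SimpleGraph.Connectivity.Connected
import Mathlib.Data.Fintype.Pi
import Mathlib.Tactic

set_option autoImplicit false

/-!
# MP_fb7c1b_co: the lion number is not monotone under taking connected subgraphs

Two lions can clear the graph `G8` with eight vertices and twelve edges, but they cannot clear the
connected spanning subgraph `H8` that arises from `G8` by deleting one edge.
-/

namespace Pool.Agent.Results.MP_fb7c1b_co.NotSubgraphMonotone

variable {V : Type*}

/-- The lions may go from the positions `p` to the positions `q` in one step: each lion stays put or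
moves across one edge to an adjacent vertex. -/
def Legal (G : SimpleGraph V) {k : ℕ} (p q : Fin k → V) : Prop :=
  ∀ i, q i = p i ∨ G.Adj (p i) (q i)

/-- The set of cleared vertices after a step in which the lions go from the positions `p` to the
positions `q`, where `C` is the set of cleared vertices before the step. A vertex is cleared if a
lion is on it, or if it was cleared before and for each of its contaminated neighbours `u` some lion
crosses the edge from `v` to `u`. -/
def nextCleared (G : SimpleGraph V) {k : ℕ} (C : Set V) (p q : Fin k → V) : Set V :=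
  {v | (∃ i, q i = v) ∨ (v ∈ C ∧ ∀ u, G.Adj v u → u ∉ C → ∃ i, p i = v ∧ q i = u)}

/-- The set `C(t)` of cleared vertices at time `t`, where `pos t i` is the position of lion `i` at
time `t`. -/
def cleared (G : SimpleGraph V) {k : ℕ} (pos : ℕ → Fin k → V) : ℕ → Set V
  | 0 => {v | ∃ i, pos 0 i = v}
  | t + 1 => nextCleared G (cleared G pos t) (pos t) (pos (t + 1))

/-- The `k` lions can clear `G`: some placement and sequence of moves gives `C(t) = V(G)` at some
time `t`. -/
def CanClear (G : SimpleGraph V) (k : ℕ) : Prop :=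
  ∃ pos : ℕ → Fin k → V, (∀ t, Legal G (pos t) (pos (t + 1))) ∧
    ∃ t, cleared G pos t = Set.univ

/-- The graph with the vertices `0, ..., 7` and the twelve edges
`07, 14, 16, 23, 25, 35, 37, 46, 47, 56, 57, 67`. -/
def G8 : SimpleGraph (Fin 8) :=
  SimpleGraph.fromEdgeSet {s(0, 7), s(1, 4), s(1, 6), s(2, 3), s(2, 5), s(3, 5), s(3, 7), s(4, 6),
    s(4, 7), s(5, 6), s(5, 7), s(6, 7)}

/-- The graph with the vertices `0, ..., 7` and the edges of `G8` except for the edge `57`. -/
def H8 : SimpleGraph (Fin 8) :=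
  SimpleGraph.fromEdgeSet {s(0, 7), s(1, 4), s(1, 6), s(2, 3), s(2, 5), s(3, 5), s(3, 7), s(4, 6),
    s(4, 7), s(5, 6), s(6, 7)}

/-! ### Neighbour lists -/

def nbG (v : Fin 8) : List (Fin 8) := match v.val with
  | 0 => [7]
  | 1 => [4, 6]
  | 2 => [3, 5]
  | 3 => [2, 5, 7]
  | 4 => [1, 6, 7]
  | 5 => [2, 3, 6, 7]
  | 6 => [1, 4, 5, 7]
  | _ => [0, 3, 4, 5, 6]

def nbH (v : Fin 8) : List (Fin 8) := match v.val with
  | 0 => [7]
  | 1 => [4, 6]
  | 2 => [3, 5]
  | 3 => [2, 5, 7]
  | 4 => [1, 6, 7]
  | 5 => [2, 3, 6]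
  | 6 => [1, 4, 5, 7]
  | _ => [0, 3, 4, 6]

lemma adjG : ∀ v w, G8.Adj v w ↔ w ∈ nbG v := by
  intro v w
  unfold G8
  rw [SimpleGraph.fromEdgeSet_adj]
  simp only [Set.mem_insert_iff, Set.mem_singleton_iff, Sym2.eq_iff]
  revert v w
  decide +kernel

lemma adjH : ∀ v w, H8.Adj v w ↔ w ∈ nbH v := by
  intro v w
  unfold H8
  rw [SimpleGraph.fromEdgeSet_adj]
  simp only [Set.mem_insert_iff, Set.mem_singleton_iff, Sym2.eq_iff]
  revert v w
  decide +kernel

/-! ### Computing with bit masks -/

/-- The vertex `v` is cleared after the step if the cleared set before the step is given by the mask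
`M`. -/
def inNext (nb : Fin 8 → List (Fin 8)) (M : ℕ) (a b a' b' v : Fin 8) : Bool :=
  Nat.beq a'.val v.val || Nat.beq b'.val v.val || (Nat.testBit M v.val && (nb v).all fun u =>
    Nat.testBit M u.val || (Nat.beq a.val v.val && Nat.beq a'.val u.val) ||
      (Nat.beq b.val v.val && Nat.beq b'.val u.val))

lemma beq_iff (a b : Fin 8) : Nat.beq a.val b.val = true ↔ a = b := by
  rw [Nat.beq_eq, Fin.ext_iff]

lemma inNext_iff (nb : Fin 8 → List (Fin 8)) (G : SimpleGraph (Fin 8))
    (hG : ∀ v w, G.Adj v w ↔ w ∈ nb v) (M : ℕ) (p q : Fin 2 → Fin 8) (v : Fin 8) :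
    inNext nb M (p 0) (p 1) (q 0) (q 1) v = true ↔
      v ∈ nextCleared G {x | Nat.testBit M x.val = true} p q := by
  unfold inNext nextCleared
  simp only [Set.mem_ofPred_eq, Fin.exists_fin_two, Bool.or_eq_true, Bool.and_eq_true,
    List.all_eq_true, beq_iff, hG]
  constructor
  · rintro (h | ⟨h1, h2⟩)
    · exact Or.inl h
    · refine Or.inr ⟨h1, fun u hu hM => ?_⟩
      rcases h2 u hu with (h | h) | h
      · exact absurd h hM
      · exact Or.inl h
      · exact Or.inr h
  · rintro (h | ⟨h1, h2⟩)
    · exact Or.inl h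
    · refine Or.inr ⟨h1, fun u hu => ?_⟩
      by_cases hM : Nat.testBit M u.val = true
      · exact Or.inl (Or.inl hM)
      · rcases h2 u hu hM with h | h
        · exact Or.inl (Or.inr h)
        · exact Or.inr h

lemma nextCleared_mono (G : SimpleGraph V) {k : ℕ} {C D : Set V} (h : C ⊆ D) (p q : Fin k → V) :
    nextCleared G C p q ⊆ nextCleared G D p q := by
  rintro v (hv | ⟨hv, hu⟩)
  · exact Or.inl hv
  · exact Or.inr ⟨h hv, fun u hvu huD => hu u hvu fun huC => huD (h huC)⟩

/-! ### Two lions cannot clear `H8` -/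

/-- For each pair of positions the maximal sets of cleared vertices that can occur, as bit masks. -/
def tab : List (List ℕ) := [
  [13, 19], [19, 47], [13, 87, 151], [13, 91, 155], [19, 61], [45, 115, 179], [83, 109], [147,
    173],
  [19, 47], [19, 38], [7, 38], [26, 46, 139], [62, 147], [38, 51], [83, 110, 195], [147, 167, 174,
    194],
  [13, 87, 151], [7, 38], [13, 38], [13, 46, 94], [21, 28, 52, 86], [38, 45], [77, 86, 100], [135,
    140, 166, 214],
  [13, 91, 155], [26, 46, 139], [13, 46, 94], [9, 12, 90], [60, 90, 153], [46, 122, 169], [75, 89,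
    90, 108, 201], [139, 141, 172, 218],
  [19, 61], [62, 147], [21, 28, 52, 86], [60, 90, 153], [19, 54, 60, 145], [51, 54, 57, 60, 114,
    177], [83, 118, 124, 209], [147, 157, 181, 182, 188, 210],
  [45, 115, 179], [38, 51], [38, 45], [46, 122, 169], [51, 54, 57, 60, 114, 177], [33, 38], [105,
    108, 114], [163, 165, 166, 169, 172, 242],
  [83, 109], [83, 110, 195], [77, 86, 100], [75, 89, 90, 108, 201], [83, 118, 124, 209], [105,
    108, 114], [70, 83, 108, 193], [195, 198, 205, 209, 210, 229, 236],
  [147, 173], [147, 167, 174, 194], [135, 140, 166, 214], [139, 141, 172, 218], [147, 157, 181,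
    182, 188, 210], [163, 165, 166, 169, 172, 242], [195, 198, 205, 209, 210, 229, 236], [131,
    141, 165, 172, 210]]

def tb (a b : Fin 8) : List ℕ := tab.getD (8 * a.val + b.val) []

def vs8 : List (Fin 8) := [0, 1, 2, 3, 4, 5, 6, 7]

lemma mem_vs8 : ∀ v : Fin 8, v ∈ vs8 := by decide

def closedB (a : Fin 8) : Bool :=
  vs8.all fun b => (tb a b).all fun M => (a :: nbH a).all fun a' => (b :: nbH b).all fun b' =>
    (tb a' b').any fun M' => vs8.all fun v => !inNext nbH M a b a' b' v || Nat.testBit M' v.val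

lemma closed_all : ∀ a : Fin 8, closedB a = true := by decide +kernel

lemma initB : ∀ a b : Fin 8, (tb a b).any (fun M => Nat.testBit M a.val && Nat.testBit M b.val) =
    true := by decide +kernel

lemma fullB : ∀ a b : Fin 8, (tb a b).all (fun M => vs8.any fun v => !Nat.testBit M v.val) =
    true := by decide +kernel

/-- The invariant. -/
def Inv (p : Fin 2 → Fin 8) (C : Set (Fin 8)) : Prop :=
  ∃ M ∈ tb (p 0) (p 1), C ⊆ {x | Nat.testBit M x.val = true}

lemma inv_step (p q : Fin 2 → Fin 8) (C : Set (Fin 8)) (h : Inv p C) (hl : Legal H8 p q) :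
    Inv q (nextCleared H8 C p q) := by
  obtain ⟨M, hM, hC⟩ := h
  have h1 := closed_all (p 0)
  unfold closedB at h1
  rw [List.all_eq_true] at h1
  have h2 := h1 _ (mem_vs8 (p 1))
  rw [List.all_eq_true] at h2
  have h3 := h2 M hM
  rw [List.all_eq_true] at h3
  have hmem : ∀ i, q i ∈ p i :: nbH (p i) := by
    intro i
    rcases hl i with h | h
    · rw [h]; exact List.mem_cons_self
    · exact List.mem_cons_of_mem _ ((adjH _ _).mp h)
  have h4 := h3 _ (hmem 0)
  rw [List.all_eq_true] at h4
  have h5 := h4 _ (hmem 1)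
  rw [List.any_eq_true] at h5
  obtain ⟨M', hM', h6⟩ := h5
  refine ⟨M', hM', fun v hv => ?_⟩
  rw [List.all_eq_true] at h6
  have h7 := h6 v (mem_vs8 v)
  have h8 := (inNext_iff nbH H8 adjH M p q v).mpr (nextCleared_mono H8 hC p q hv)
  rw [h8, Bool.not_true, Bool.false_or] at h7
  exact h7

theorem not_canClear_H8 : ¬ CanClear H8 2 := by
  rintro ⟨pos, hl, T, hT⟩
  have h : ∀ t, Inv (pos t) (cleared H8 pos t) := by
    intro t
    induction t with
    | zero =>
      have h1 := initB (pos 0 0) (pos 0 1)
      rw [List.any_eq_true] at h1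
      obtain ⟨M, hM, h2⟩ := h1
      rw [Bool.and_eq_true] at h2
      refine ⟨M, hM, ?_⟩
      rintro v ⟨i, rfl⟩
      rw [Set.mem_ofPred_eq]
      match i with
      | 0 => exact h2.1
      | 1 => exact h2.2
    | succ t ih => exact inv_step _ _ _ ih (hl t)
  obtain ⟨M, hM, hC⟩ := h T
  have h1 := fullB (pos T 0) (pos T 1)
  rw [List.all_eq_true] at h1
  have h2 := h1 M hM
  rw [List.any_eq_true] at h2
  obtain ⟨v, _, hv⟩ := h2
  have h3 : v ∈ cleared H8 pos T := by rw [hT]; trivial
  have h4 := hC h3
  rw [Set.mem_ofPred_eq] at h4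
  rw [h4] at hv
  exact absurd hv (by simp)

/-! ### Two lions can clear `G8` -/

/-- The positions of the two lions. -/
def clearPos : ℕ → Fin 2 → Fin 8
  | 0 => ![1, 1]
  | 1 => ![4, 6]
  | 2 => ![7, 6]
  | 3 => ![7, 5]
  | 4 => ![0, 7]
  | 5 => ![7, 6]
  | 6 => ![7, 5]
  | 7 => ![3, 5]
  | _ => ![3, 2]

/-- The sets of cleared vertices, as bit masks. -/
def masks : List ℕ := [2, 82, 210, 242, 211, 211, 243, 251, 255]

lemma maskB : ∀ t : Fin 8, ∀ v : Fin 8,
    inNext nbG (masks.getD t.val 0) (clearPos t.val 0) (clearPos t.val 1)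
      (clearPos (t.val + 1) 0) (clearPos (t.val + 1) 1) v =
      Nat.testBit (masks.getD (t.val + 1) 0) v.val := by
  decide +kernel

theorem canClear_G8 : CanClear G8 2 := by
  refine ⟨clearPos, ?_, 8, ?_⟩
  · intro t
    have hs : ∀ t : Fin 8, ∀ i : Fin 2, clearPos (t.val + 1) i = clearPos t.val i ∨
        clearPos (t.val + 1) i ∈ nbG (clearPos t.val i) := by
      decide +kernel
    by_cases ht : t < 8
    · intro i
      rw [adjG]
      exact hs ⟨t, ht⟩ i
    · obtain ⟨s, rfl⟩ : ∃ s, t = s + 8 := ⟨t - 8, by omega⟩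
      exact fun i => Or.inl rfl
  · have h : ∀ t, t ≤ 8 → cleared G8 clearPos t =
        {v | Nat.testBit (masks.getD t 0) v.val = true} := by
      intro t
      induction t with
      | zero =>
        intro _
        ext v
        have h0 : ∀ v : Fin 8, ((1 : Fin 8) = v ∨ (1 : Fin 8) = v) ↔
            Nat.testBit (masks.getD 0 0) v.val = true := by decide +kernel
        simp only [cleared, Set.mem_ofPred_eq, Fin.exists_fin_two]
        exact h0 v
      | succ t ih =>
        intro ht
        show nextCleared G8 (cleared G8 clearPos t) (clearPos t) (clearPos (t + 1)) = _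
        rw [ih (by omega)]
        ext v
        rw [← inNext_iff nbG G8 adjG, Set.mem_ofPred_eq]
        have := maskB ⟨t, by omega⟩ v
        simp only at this
        rw [this]
    rw [h 8 le_rfl, Set.eq_univ_iff_forall]
    have h8 : ∀ v : Fin 8, Nat.testBit (masks.getD 8 0) v.val = true := by decide +kernel
    exact h8

lemma le_G8 : H8 ≤ G8 := by
  intro v w h
  rw [adjH] at h
  rw [adjG]
  revert v w
  decide +kernel

lemma connected_H8 : H8.Connected := by
  have a07 : H8.Adj 0 7 := (adjH _ _).mpr (by decide)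
  have a14 : H8.Adj 4 1 := (adjH _ _).mpr (by decide)
  have a23 : H8.Adj 3 2 := (adjH _ _).mpr (by decide)
  have a35 : H8.Adj 3 5 := (adjH _ _).mpr (by decide)
  have a37 : H8.Adj 7 3 := (adjH _ _).mpr (by decide)
  have a47 : H8.Adj 7 4 := (adjH _ _).mpr (by decide)
  have a67 : H8.Adj 7 6 := (adjH _ _).mpr (by decide)
  have h7 := a07.reachable
  have h3 := h7.trans a37.reachable
  have h4 := h7.trans a47.reachable
  have h : ∀ v : Fin 8, H8.Reachable 0 v := by
    intro v
    fin_cases v
    · exact SimpleGraph.Reachable.refl _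
    · exact h4.trans a14.reachable
    · exact h3.trans a23.reachable
    · exact h3
    · exact h4
    · exact h3.trans a35.reachable
    · exact h7.trans a67.reachable
    · exact h7
  exact (SimpleGraph.connected_iff_exists_forall_reachable _).mpr ⟨0, h⟩

/-- The graph `G8` is connected, `H8` is a connected spanning subgraph of `G8`, two lions can clear
`G8`, and two lions cannot clear `H8`. -/
theorem result : G8.Connected ∧ H8.Connected ∧ H8 ≤ G8 ∧ CanClear G8 2 ∧ ¬ CanClear H8 2 :=
  ⟨connected_H8.mono le_G8, connected_H8, le_G8, canClear_G8, not_canClear_H8⟩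

end Pool.Agent.Results.MP_fb7c1b_co.NotSubgraphMonotone
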